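import Mathlib

set_option autoImplicit false

namespace Pool.Agent.Results.MP_efcf90_co.NoRank

/-- An additive poset: an abelian group with a partial order satisfying `(∗)` and `(∗∗)`. -/
def IsAdditivePoset (A : Type) [AddCommGroup A] [PartialOrder A] : Prop :=
  (∀ a b c : A, b ≤ a → c ≤ a → b + c ≤ a) ∧ (∀ a b c : A, a ≤ b → a ≤ c → a ≤ a + b + c)

/-- `r` is a rank of the additive poset `A` (`a`, `b` are independent when `a ≤ a + b`). -/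
def IsRank {A : Type} [AddCommGroup A] [PartialOrder A] [DecidableEq A] (r : A → ℕ) : Prop :=
  (∀ a, r a = 0 ↔ a = 0) ∧
  (∀ a b, a ≤ a + b → r (a + b) = r a + r b) ∧
  (∀ K : Finset A, K.Nonempty →
    0 ≤ ∑ J ∈ K.powerset.erase ∅, (-1 : ℤ) ^ (J.card + 1) * (r (∑ a ∈ J, a) : ℤ) ∧
    (2 : ℤ) ^ (K.card - 1) ∣
      ∑ J ∈ K.powerset.erase ∅, (-1 : ℤ) ^ (J.card + 1) * (r (∑ a ∈ J, a) : ℤ))

/-- The group `(ℤ/2)^4`. -/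
abbrev V : Type := ZMod 2 × ZMod 2 × ZMod 2 × ZMod 2

/-- The pairs `(a, b)` with `a < b`, `a ≠ 0`. -/
def rel (a b : V) : Bool :=
  (b == (1,0,0,1) && (a == (1,0,0,0) || a == (0,0,0,1))) ||
  (b == (1,1,1,1) && (a == (1,1,0,0) || a == (0,0,1,1))) ||
  (b == (1,1,0,1) && (a == (1,0,1,0) || a == (0,1,1,1))) ||
  (b == (1,0,1,1) && (a == (1,1,1,0) || a == (0,1,0,1)))

/-- The order. -/
def leB (a b : V) : Bool := a == b || a == 0 || rel a b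

/-- A copy of the group, carrying the new order. -/
structure W where
  val : V
deriving DecidableEq

instance : Fintype W := Fintype.ofEquiv V ⟨W.mk, W.val, fun _ => rfl, fun _ => rfl⟩

/-- The bijection with the group. -/
def eqv : W ≃ V := ⟨W.val, W.mk, fun _ => rfl, fun _ => rfl⟩

instance : AddCommGroup W := eqv.addCommGroup

instance : PartialOrder W where
  le a b := leB a.val b.val = true
  le_refl := by decide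
  le_trans := by decide +kernel
  le_antisymm := by decide +kernel

instance (a b : W) : Decidable (a ≤ b) := inferInstanceAs (Decidable (leB a.val b.val = true))

lemma isAdditivePoset : IsAdditivePoset W := by
  constructor
  · decide +kernel
  · decide +kernel

/-- The alternating sum over the nonempty subsets of a set of four elements. -/
lemma quad {A : Type} [AddCommGroup A] [DecidableEq A] (r : A → ℕ) (hr0 : r 0 = 0) (a b c d : A)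
    (hab : a ≠ b) (hac : a ≠ c) (had : a ≠ d) (hbc : b ≠ c) (hbd : b ≠ d) (hcd : c ≠ d) :
    ∑ J ∈ ({a, b, c, d} : Finset A).powerset.erase ∅,
      (-1 : ℤ) ^ (J.card + 1) * (r (∑ a ∈ J, a) : ℤ) =
    (r a + r b + r c + r d + r (a + b + c) + r (a + b + d) + r (a + c + d) + r (b + c + d) : ℤ) -
    (r (a + b) + r (a + c) + r (a + d) + r (b + c) + r (b + d) + r (c + d) +
      r (a + b + c + d) : ℤ) := by
  have key : ∀ F : Finset A → ℤ, F ∅ = 0 →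
      ∑ J ∈ ({a, b, c, d} : Finset A).powerset.erase ∅, F J =
      F {a} + F {b} + F {c} + F {d} + F {a, b} + F {a, c} + F {a, d} + F {b, c} + F {b, d} +
      F {c, d} + F {a, b, c} + F {a, b, d} + F {a, c, d} + F {b, c, d} + F {a, b, c, d} := by
    intro F hF
    have h1 : ∑ J ∈ ({a, b, c, d} : Finset A).powerset.erase ∅, F J =
        ∑ J ∈ ({a, b, c, d} : Finset A).powerset, F J := by
      rw [← Finset.add_sum_erase _ F (Finset.empty_mem_powerset _), hF, zero_add]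
    have h2 : ∀ G : Finset A → ℤ, ∑ J ∈ ({d} : Finset A).powerset, G J = G ∅ + G {d} := by
      intro G
      rw [← insert_empty_eq d, Finset.sum_powerset_insert (by simp)]
      simp
    have h3 : ∀ G : Finset A → ℤ, ∑ J ∈ ({c, d} : Finset A).powerset, G J =
        G ∅ + G {d} + (G (insert c ∅) + G (insert c {d})) := by
      intro G
      rw [Finset.sum_powerset_insert (by simp [hcd]), h2, h2]
    have h4 : ∀ G : Finset A → ℤ, ∑ J ∈ ({b, c, d} : Finset A).powerset, G J =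
        G ∅ + G {d} + (G (insert c ∅) + G (insert c {d})) +
        (G (insert b ∅) + G (insert b {d}) + (G (insert b (insert c ∅)) +
          G (insert b (insert c {d})))) := by
      intro G
      rw [Finset.sum_powerset_insert (by simp [hbc, hbd]), h3, h3]
    rw [h1, Finset.sum_powerset_insert (by simp [hab, hac, had]), h4, h4]
    simp only [hF]
    have e : ∀ x : A, insert x (∅ : Finset A) = {x} := fun x => by simp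
    simp only [e]
    ring
  rw [key _ (by simp [hr0])]
  have s2 : ∀ x y : A, x ≠ y → ∑ a ∈ ({x, y} : Finset A), a = x + y :=
    fun x y h => Finset.sum_pair h
  have s3 : ∀ x y z : A, x ≠ y → x ≠ z → y ≠ z → ∑ a ∈ ({x, y, z} : Finset A), a = x + y + z := by
    intro x y z h1 h2 h3
    rw [Finset.sum_insert (by simp [h1, h2]), Finset.sum_pair h3, add_assoc]
  have s4 : ∑ x ∈ ({a, b, c, d} : Finset A), x = a + b + c + d := by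
    rw [Finset.sum_insert (by simp [hab, hac, had]), s3 b c d hbc hbd hcd]
    abel
  have c2 : ∀ x y : A, x ≠ y → ({x, y} : Finset A).card = 2 := fun x y h => Finset.card_pair h
  have c3 : ∀ x y z : A, x ≠ y → x ≠ z → y ≠ z → ({x, y, z} : Finset A).card = 3 := by
    intro x y z h1 h2 h3
    exact Finset.card_eq_three.2 ⟨x, y, z, h1, h2, h3, rfl⟩
  have c4 : ({a, b, c, d} : Finset A).card = 4 := by
    rw [Finset.card_insert_of_notMem (by simp [hab, hac, had]), c3 b c d hbc hbd hcd]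
  rw [s2 a b hab, s2 a c hac, s2 a d had, s2 b c hbc, s2 b d hbd, s2 c d hcd,
    s3 a b c hab hac hbc, s3 a b d hab had hbd, s3 a c d hac had hcd, s3 b c d hbc hbd hcd, s4,
    c2 a b hab, c2 a c hac, c2 a d had, c2 b c hbc, c2 b d hbd, c2 c d hcd,
    c3 a b c hab hac hbc, c3 a b d hab had hbd, c3 a c d hac had hcd, c3 b c d hbc hbd hcd, c4]
  simp only [Finset.sum_singleton, Finset.card_singleton]
  ring

/-- The element with given coordinates. -/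
def w (a b c d : ZMod 2) : W := ⟨(a, b, c, d)⟩

/-- **No.** There is an additive poset with 16 elements without a rank. -/
theorem result : ∃ (A : Type) (_ : AddCommGroup A) (_ : PartialOrder A) (_ : DecidableEq A)
    (_ : Finite A), IsAdditivePoset A ∧ ¬ ∃ r : A → ℕ, IsRank r := by
  refine ⟨W, inferInstance, inferInstance, inferInstance, inferInstance, isAdditivePoset, ?_⟩
  rintro ⟨r, h1, h2, h3⟩
  have h0 : r 0 = 0 := (h1 0).2 rfl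
  have hpos : r (⟨(0,1,0,0)⟩ : W) ≠ 0 := fun h => by
    have := (h1 _).1 h
    revert this
    decide
  have e0 : r ⟨(1,0,0,1)⟩ = r ⟨(1,0,0,0)⟩ + r ⟨(0,0,0,1)⟩ := h2 ⟨(1,0,0,0)⟩ ⟨(0,0,0,1)⟩ (by decide)
  have e1 : r ⟨(1,1,1,1)⟩ = r ⟨(1,1,0,0)⟩ + r ⟨(0,0,1,1)⟩ := h2 ⟨(1,1,0,0)⟩ ⟨(0,0,1,1)⟩ (by decide)
  have e2 : r ⟨(1,1,0,1)⟩ = r ⟨(1,0,1,0)⟩ + r ⟨(0,1,1,1)⟩ := h2 ⟨(1,0,1,0)⟩ ⟨(0,1,1,1)⟩ (by decide)
  have e3 : r ⟨(1,0,1,1)⟩ = r ⟨(1,1,1,0)⟩ + r ⟨(0,1,0,1)⟩ := h2 ⟨(1,1,1,0)⟩ ⟨(0,1,0,1)⟩ (by decide)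
  have k4 : (0 : ℤ) ≤ (r ⟨(0,0,1,0)⟩ + r ⟨(1,0,1,0)⟩ + r ⟨(0,1,1,0)⟩ + r ⟨(0,0,1,1)⟩ + r ⟨(1,1,1,0)⟩ + r ⟨(1,0,1,1)⟩ + r ⟨(0,1,1,1)⟩ + r ⟨(1,1,1,1)⟩ : ℤ) -
      (r ⟨(1,0,0,0)⟩ + r ⟨(0,1,0,0)⟩ + r ⟨(0,0,0,1)⟩ + r ⟨(1,1,0,0)⟩ + r ⟨(1,0,0,1)⟩ + r ⟨(0,1,0,1)⟩ + r ⟨(1,1,0,1)⟩ : ℤ) := by
    have h := (h3 {⟨(0,0,1,0)⟩, ⟨(1,0,1,0)⟩, ⟨(0,1,1,0)⟩, ⟨(0,0,1,1)⟩} (by simp)).1
    rw [quad r h0 _ _ _ _ (by decide) (by decide) (by decide) (by decide) (by decide) (by decide)] at h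
    exact h
  have k5 : (0 : ℤ) ≤ (r ⟨(1,0,0,0)⟩ + r ⟨(1,1,0,0)⟩ + r ⟨(0,0,1,0)⟩ + r ⟨(1,0,0,1)⟩ + r ⟨(0,1,1,0)⟩ + r ⟨(1,1,0,1)⟩ + r ⟨(0,0,1,1)⟩ + r ⟨(0,1,1,1)⟩ : ℤ) -
      (r ⟨(0,1,0,0)⟩ + r ⟨(1,0,1,0)⟩ + r ⟨(0,0,0,1)⟩ + r ⟨(1,1,1,0)⟩ + r ⟨(0,1,0,1)⟩ + r ⟨(1,0,1,1)⟩ + r ⟨(1,1,1,1)⟩ : ℤ) := by
    have h := (h3 {⟨(1,0,0,0)⟩, ⟨(1,1,0,0)⟩, ⟨(0,0,1,0)⟩, ⟨(1,0,0,1)⟩} (by simp)).1
    rw [quad r h0 _ _ _ _ (by decide) (by decide) (by decide) (by decide) (by decide) (by decide)] at h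
    exact h
  have k9 : (0 : ℤ) ≤ (r ⟨(1,0,0,0)⟩ + r ⟨(1,1,0,0)⟩ + r ⟨(1,0,1,0)⟩ + r ⟨(0,0,0,1)⟩ + r ⟨(1,1,1,0)⟩ + r ⟨(0,1,0,1)⟩ + r ⟨(0,0,1,1)⟩ + r ⟨(0,1,1,1)⟩ : ℤ) -
      (r ⟨(0,1,0,0)⟩ + r ⟨(0,0,1,0)⟩ + r ⟨(1,0,0,1)⟩ + r ⟨(0,1,1,0)⟩ + r ⟨(1,1,0,1)⟩ + r ⟨(1,0,1,1)⟩ + r ⟨(1,1,1,1)⟩ : ℤ) := by
    have h := (h3 {⟨(1,0,0,0)⟩, ⟨(1,1,0,0)⟩, ⟨(1,0,1,0)⟩, ⟨(0,0,0,1)⟩} (by simp)).1
    rw [quad r h0 _ _ _ _ (by decide) (by decide) (by decide) (by decide) (by decide) (by decide)] at h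
    exact h
  have k12 : (0 : ℤ) ≤ (r ⟨(0,0,1,0)⟩ + r ⟨(1,0,1,0)⟩ + r ⟨(0,1,1,0)⟩ + r ⟨(0,0,0,1)⟩ + r ⟨(1,1,1,0)⟩ + r ⟨(1,0,0,1)⟩ + r ⟨(0,1,0,1)⟩ + r ⟨(1,1,0,1)⟩ : ℤ) -
      (r ⟨(1,0,0,0)⟩ + r ⟨(0,1,0,0)⟩ + r ⟨(0,0,1,1)⟩ + r ⟨(1,1,0,0)⟩ + r ⟨(1,0,1,1)⟩ + r ⟨(0,1,1,1)⟩ + r ⟨(1,1,1,1)⟩ : ℤ) := by
    have h := (h3 {⟨(0,0,1,0)⟩, ⟨(1,0,1,0)⟩, ⟨(0,1,1,0)⟩, ⟨(0,0,0,1)⟩} (by simp)).1
    rw [quad r h0 _ _ _ _ (by decide) (by decide) (by decide) (by decide) (by decide) (by decide)] at h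
    exact h
  have k13 : (0 : ℤ) ≤ (r ⟨(1,0,0,0)⟩ + r ⟨(1,1,0,0)⟩ + r ⟨(0,0,1,0)⟩ + r ⟨(0,0,0,1)⟩ + r ⟨(0,1,1,0)⟩ + r ⟨(0,1,0,1)⟩ + r ⟨(1,0,1,1)⟩ + r ⟨(1,1,1,1)⟩ : ℤ) -
      (r ⟨(0,1,0,0)⟩ + r ⟨(1,0,1,0)⟩ + r ⟨(1,0,0,1)⟩ + r ⟨(1,1,1,0)⟩ + r ⟨(1,1,0,1)⟩ + r ⟨(0,0,1,1)⟩ + r ⟨(0,1,1,1)⟩ : ℤ) := by
    have h := (h3 {⟨(1,0,0,0)⟩, ⟨(1,1,0,0)⟩, ⟨(0,0,1,0)⟩, ⟨(0,0,0,1)⟩} (by simp)).1
    rw [quad r h0 _ _ _ _ (by decide) (by decide) (by decide) (by decide) (by decide) (by decide)] at h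
    exact h
  omega

end Pool.Agent.Results.MP_efcf90_co.NoRank
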